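import Pool.Agent.TH151.RectCover

/-!
# Moser's problem on translative coverings of the unit square by rectangles (MP_6800d9_co)

Every finite or infinite family of rectangles `[0, aᵢ] × [0, bᵢ]` with sides at most `1` and total
area at least `3` covers the unit square by translations, and even a finite subfamily does.

Proof: fill rows with the rectangles in the order of decreasing heights; if the rows do not reach
the height `1`, the total area is smaller than `3`.  For an infinite family of total area exactly
`3` there is a positive gap unless the rectangles of height exactly `1` have total width at least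
`1`, and this case is treated by hand.
-/

set_option autoImplicit false

namespace Pool.Agent.Results.MP_6800d9_co.MoserRectangles

/-- **Moser's problem, positive answer.**  Let `(a i, b i)`, `i ∈ ι`, be a family of pairs of side
lengths in `(0, 1]` (finite or infinite) with total area `A ≥ 3`.  Then some finite subfamily `F`
has translates `[xᵢ, xᵢ + a i] × [yᵢ, yᵢ + b i]`, `i ∈ F`, covering `[0,1] × [0,1]`. -/
theorem result (ι : Type) (a b : ι → ℝ) (ha : ∀ i, 0 < a i ∧ a i ≤ 1)
    (hb : ∀ i, 0 < b i ∧ b i ≤ 1) (A : ℝ) (hA : 3 ≤ A)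
    (hsum : HasSum (fun i => a i * b i) A) :
    ∃ (F : Finset ι) (x y : ι → ℝ),
      Set.Icc (0 : ℝ) 1 ×ˢ Set.Icc (0 : ℝ) 1 ⊆
        ⋃ i ∈ F, Set.Icc (x i) (x i + a i) ×ˢ Set.Icc (y i) (y i + b i) := by
  obtain ⟨F, v, hv⟩ := TH151.RectCover.main (fun i => (ha i).1) (fun i => (ha i).2)
    (fun i => (hb i).1) (fun i => (hb i).2) A hA hsum
  refine ⟨F, fun i => (v i).1, fun i => (v i).2, ?_⟩
  rintro ⟨p, q⟩ ⟨⟨h1, h2⟩, ⟨h3, h4⟩⟩
  obtain ⟨i, hi, c1, c2, c3, c4⟩ := hv (p, q) ⟨h1, h2, h3, h4⟩
  simp only [Set.mem_iUnion]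
  exact ⟨i, hi, ⟨c1, c2⟩, ⟨c3, c4⟩⟩

end Pool.Agent.Results.MP_6800d9_co.MoserRectangles
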